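import Pool.Agent.H378R2.QG.Defs
import Pool.Agent.Helper256.KM.Mertens

set_option autoImplicit false

/-! # QL: lower bound of the sums over squarefree numbers (Rankin's trick and Mertens) -/

namespace Pool.Agent.H378R2.QG

open Finset

namespace QL

lemma exp_le_two {t : ℝ} (h0 : 0 ≤ t) (h1 : t ≤ 1) : Real.exp t ≤ 1 + 2 * t := by
  have h := Real.abs_exp_sub_one_sub_id_le (x := t) (by rw [abs_of_nonneg h0]; exact h1)
  have := (abs_le.1 h).2
  nlinarith

lemma mem_PZ {y z : ℝ} (hz : 0 ≤ z) {p : ℕ} : p ∈ PZ y z ↔ p.Prime ∧ y < p ∧ (p : ℝ) ≤ z := by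
  unfold PZ
  rw [mem_filter, mem_Icc]
  constructor
  · rintro ⟨⟨_, h2⟩, h3, h4⟩
    exact ⟨h3, h4, (Nat.le_floor_iff hz).1 h2⟩
  · rintro ⟨h3, h4, h5⟩
    exact ⟨⟨h3.one_le, (Nat.le_floor_iff hz).2 h5⟩, h3, h4⟩

lemma rankin (C1 : ℝ) (hC1 : ∀ N : ℕ, 1 ≤ N →
      |∑ p ∈ (Finset.Icc 1 N).filter Nat.Prime, Real.log p / p - Real.log N| ≤ C1)
    (y₁ w x : ℝ) (g : ℕ → ℝ) (hg0 : ∀ p, 0 ≤ g p) (hg : ∀ p ∈ PZ y₁ w, g p ≤ 2 / p) (hw : 3 ≤ w)
    (hx0 : 0 < x) (hx : Real.log x = (4 * (1 + C1) + 1) * Real.log w) :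
    ∏ p ∈ PZ y₁ w, (1 + g p) ≤
      2 * ∑ s ∈ (PZ y₁ w).powerset.filter (fun s : Finset ℕ => ∏ p ∈ s, (p : ℝ) ≤ x),
        ∏ p ∈ s, g p := by
  have hC10 : 0 ≤ C1 := (abs_nonneg _).trans (hC1 1 le_rfl)
  have hw0 : (0 : ℝ) ≤ w := by linarith
  have hlw : 1 ≤ Real.log w := by
    rw [Real.le_log_iff_exp_le (by linarith)]
    have := Real.exp_one_lt_d9
    linarith
  have hlw0 : 0 < Real.log w := by linarith
  set A : ℝ := 4 * (1 + C1) + 1 with hA
  set P := PZ y₁ w with hP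
  have hPp : ∀ p ∈ P, p.Prime ∧ y₁ < p ∧ (p : ℝ) ≤ w := fun p hp => (mem_PZ hw0).1 hp
  -- the expansion
  have e1 : ∏ p ∈ P, (1 + g p) = ∑ s ∈ P.powerset, ∏ p ∈ s, g p := Finset.prod_one_add (s := P)
  have e2 : ∏ p ∈ P, (1 + g p * Real.exp (Real.log p / Real.log w)) =
      ∑ s ∈ P.powerset, ∏ p ∈ s, (g p * Real.exp (Real.log p / Real.log w)) :=
    Finset.prod_one_add (s := P)
  have e3 : ∏ p ∈ P, (1 + g p) ≤
      ∑ s ∈ P.powerset.filter (fun s : Finset ℕ => ∏ p ∈ s, (p : ℝ) ≤ x), ∏ p ∈ s, g p +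
      Real.exp (-A) * ∏ p ∈ P, (1 + g p * Real.exp (Real.log p / Real.log w)) := by
    rw [e1, e2, Finset.sum_filter, Finset.mul_sum, ← Finset.sum_add_distrib]
    refine Finset.sum_le_sum fun s hs => ?_
    have hs' : s ⊆ P := Finset.mem_powerset.1 hs
    have hnn : 0 ≤ ∏ p ∈ s, g p := Finset.prod_nonneg fun p _ => hg0 p
    have hnn2 : 0 ≤ Real.exp (-A) * ∏ p ∈ s, (g p * Real.exp (Real.log p / Real.log w)) :=
      mul_nonneg (Real.exp_pos _).le
        (Finset.prod_nonneg fun p _ => mul_nonneg (hg0 p) (Real.exp_pos _).le)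
    split_ifs with hsx
    · linarith
    · push Not at hsx
      rw [zero_add, Finset.prod_mul_distrib, ← Real.exp_sum]
      have h1 : ∑ p ∈ s, Real.log p / Real.log w = Real.log (∏ p ∈ s, (p : ℝ)) / Real.log w := by
        rw [← Finset.sum_div, Real.log_prod]
        intro p hp
        have := (hPp p (hs' hp)).1.pos
        exact_mod_cast this.ne'
      have h2 : A ≤ Real.log (∏ p ∈ s, (p : ℝ)) / Real.log w := by
        rw [le_div_iff₀ hlw0, ← hx]
        exact Real.log_le_log hx0 hsx.le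
      have h3 : 1 ≤ Real.exp (-A) * Real.exp (∑ p ∈ s, Real.log p / Real.log w) := by
        rw [← Real.exp_add, h1]
        apply Real.one_le_exp
        linarith
      calc ∏ p ∈ s, g p = (∏ p ∈ s, g p) * 1 := by ring
        _ ≤ (∏ p ∈ s, g p) * (Real.exp (-A) * Real.exp (∑ p ∈ s, Real.log p / Real.log w)) :=
            mul_le_mul_of_nonneg_left h3 hnn
        _ = _ := by ring
  have e4 : ∏ p ∈ P, (1 + g p * Real.exp (Real.log p / Real.log w)) ≤
      (∏ p ∈ P, (1 + g p)) * Real.exp (4 * (1 + C1)) := by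
    have h1 : ∀ p ∈ P, 1 + g p * Real.exp (Real.log p / Real.log w) ≤
        (1 + g p) * Real.exp (4 / Real.log w * (Real.log p / p)) := by
      intro p hp
      obtain ⟨hpp, _, hpw⟩ := hPp p hp
      have hp0 : (0 : ℝ) < p := by exact_mod_cast hpp.pos
      have hp1 : (1 : ℝ) ≤ p := by exact_mod_cast hpp.one_le
      have hlp : 0 ≤ Real.log p := Real.log_nonneg hp1
      have ht0 : 0 ≤ Real.log p / Real.log w := by positivity
      have ht1 : Real.log p / Real.log w ≤ 1 := by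
        rw [div_le_one hlw0]
        exact Real.log_le_log hp0 hpw
      have h2 := exp_le_two ht0 ht1
      have hgp := hg0 p
      have hgp2 := hg p hp
      have h3 : g p * (2 * (Real.log p / Real.log w)) ≤ 4 / Real.log w * (Real.log p / p) := by
        calc g p * (2 * (Real.log p / Real.log w)) ≤ 2 / p * (2 * (Real.log p / Real.log w)) :=
              mul_le_mul_of_nonneg_right hgp2 (by positivity)
          _ = _ := by field_simp; ring
      have h4 : 4 / Real.log w * (Real.log p / p) + 1 ≤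
          Real.exp (4 / Real.log w * (Real.log p / p)) := Real.add_one_le_exp _
      have h5 : 1 + g p * Real.exp (Real.log p / Real.log w) ≤
          1 + g p + g p * (2 * (Real.log p / Real.log w)) := by
        have := mul_le_mul_of_nonneg_left h2 hgp
        nlinarith
      have h6 : 0 ≤ 4 / Real.log w * (Real.log p / p) := by positivity
      calc 1 + g p * Real.exp (Real.log p / Real.log w)
          ≤ 1 + g p + 4 / Real.log w * (Real.log p / p) := by linarith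
        _ ≤ (1 + g p) * (4 / Real.log w * (Real.log p / p) + 1) := by nlinarith
        _ ≤ _ := mul_le_mul_of_nonneg_left h4 (by linarith)
    have h2 : ∏ p ∈ P, (1 + g p * Real.exp (Real.log p / Real.log w)) ≤
        ∏ p ∈ P, ((1 + g p) * Real.exp (4 / Real.log w * (Real.log p / p))) :=
      Finset.prod_le_prod (fun p _ => by
        have := hg0 p
        have := Real.exp_pos (Real.log p / Real.log w)
        positivity) h1
    rw [Finset.prod_mul_distrib, ← Real.exp_sum, ← Finset.mul_sum] at h2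
    refine h2.trans ?_
    refine mul_le_mul_of_nonneg_left ?_ (Finset.prod_nonneg fun p _ => by
      have := hg0 p
      linarith)
    apply Real.exp_le_exp.2
    have h3 : ∑ p ∈ P, Real.log p / p ≤
        ∑ p ∈ (Finset.Icc 1 ⌊w⌋₊).filter Nat.Prime, Real.log p / p := by
      refine Finset.sum_le_sum_of_subset_of_nonneg ?_ ?_
      · intro p hp
        have h := hPp p hp
        rw [mem_filter, mem_Icc]
        exact ⟨⟨h.1.one_le, (Nat.le_floor_iff hw0).2 h.2.2⟩, h.1⟩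
      · intro p _ _
        have : 0 ≤ Real.log p := Real.log_natCast_nonneg p
        positivity
    have h4 := hC1 ⌊w⌋₊ (Nat.le_floor (by push_cast; linarith))
    have h5 : Real.log (⌊w⌋₊ : ℝ) ≤ Real.log w := by
      apply Real.log_le_log
      · have : 1 ≤ ⌊w⌋₊ := Nat.le_floor (by push_cast; linarith)
        exact_mod_cast this
      · exact Nat.floor_le hw0
    have h6 : ∑ p ∈ P, Real.log p / p ≤ Real.log w + C1 := by
      have := (abs_le.1 h4).2
      linarith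
    calc 4 / Real.log w * ∑ p ∈ P, Real.log p / p ≤ 4 / Real.log w * (Real.log w + C1) :=
          mul_le_mul_of_nonneg_left h6 (by positivity)
      _ = 4 * (1 + C1 / Real.log w) := by field_simp
      _ ≤ 4 * (1 + C1) := by
          have : C1 / Real.log w ≤ C1 := div_le_self hC10 hlw
          linarith
  -- conclusion
  set S := ∑ s ∈ P.powerset.filter (fun s : Finset ℕ => ∏ p ∈ s, (p : ℝ) ≤ x), ∏ p ∈ s, g p
    with hS
  have hprod : 0 ≤ ∏ p ∈ P, (1 + g p) := Finset.prod_nonneg fun p _ => by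
    have := hg0 p
    linarith
  have e5 : Real.exp (-A) * Real.exp (4 * (1 + C1)) ≤ 1 / 2 := by
    rw [← Real.exp_add]
    have h1 : -A + 4 * (1 + C1) = -1 := by rw [hA]; ring
    rw [h1, Real.exp_neg, one_div]
    apply inv_anti₀ (by norm_num)
    have := Real.exp_one_gt_d9
    linarith
  have e6 : Real.exp (-A) * ∏ p ∈ P, (1 + g p * Real.exp (Real.log p / Real.log w)) ≤
      1 / 2 * ∏ p ∈ P, (1 + g p) := by
    calc Real.exp (-A) * ∏ p ∈ P, (1 + g p * Real.exp (Real.log p / Real.log w))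
        ≤ Real.exp (-A) * ((∏ p ∈ P, (1 + g p)) * Real.exp (4 * (1 + C1))) :=
          mul_le_mul_of_nonneg_left e4 (Real.exp_pos _).le
      _ = (Real.exp (-A) * Real.exp (4 * (1 + C1))) * ∏ p ∈ P, (1 + g p) := by ring
      _ ≤ _ := mul_le_mul_of_nonneg_right e5 hprod
  linarith

lemma floor_log {w : ℝ} (hw : 3 ≤ w) :
    Real.log (Real.log w) - 2 ≤ Real.log (Real.log (⌊w⌋₊ : ℝ)) := by
  have hfl : w - 1 < (⌊w⌋₊ : ℝ) := Nat.sub_one_lt_floor w
  have h3 : 3 ≤ ⌊w⌋₊ := Nat.le_floor (by exact_mod_cast hw)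
  have h3' : (3 : ℝ) ≤ (⌊w⌋₊ : ℝ) := by exact_mod_cast h3
  have hl3 : 1 < Real.log 3 := by
    rw [Real.lt_log_iff_exp_lt (by norm_num)]
    have := Real.exp_one_lt_d9
    linarith
  have h1 : 1 < Real.log (⌊w⌋₊ : ℝ) := hl3.trans_le (Real.log_le_log (by norm_num) h3')
  have h2 : Real.log w ≤ Real.log (⌊w⌋₊ : ℝ) + Real.log 2 := by
    rw [← Real.log_mul (by positivity) (by norm_num)]
    apply Real.log_le_log (by linarith)
    linarith
  have hl2 := Real.log_two_lt_d9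
  have h4 : Real.log w ≤ Real.exp 2 * Real.log (⌊w⌋₊ : ℝ) := by
    have h5 : (3 : ℝ) ≤ Real.exp 2 := by
      have := Real.add_one_le_exp (2 : ℝ)
      linarith
    nlinarith
  have hlw : 0 < Real.log w := Real.log_pos (by linarith)
  have h6 := Real.log_le_log hlw h4
  rw [Real.log_mul (Real.exp_pos _).ne' (by linarith), Real.log_exp] at h6
  linarith

lemma sum_inv (C2 : ℝ) (hC2 : ∀ N : ℕ, 3 ≤ N →
      |∑ p ∈ (Finset.Icc 1 N).filter Nat.Prime, (1 : ℝ) / p - Real.log (Real.log N)| ≤ C2)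
    (y₁ w : ℝ) (hy : 3 ≤ y₁) (hw : y₁ ≤ w) :
    Real.log (Real.log w / Real.log y₁) - 2 - 2 * C2 ≤ ∑ p ∈ PZ y₁ w, (1 : ℝ) / p := by
  have hw3 : 3 ≤ w := hy.trans hw
  have h1 := hC2 ⌊w⌋₊ (Nat.le_floor (by exact_mod_cast hw3))
  have h2 := hC2 ⌊y₁⌋₊ (Nat.le_floor (by exact_mod_cast hy))
  have h3 : ∑ p ∈ (Finset.Icc 1 ⌊w⌋₊).filter Nat.Prime, (1 : ℝ) / p ≤
      ∑ p ∈ PZ y₁ w, (1 : ℝ) / p + ∑ p ∈ (Finset.Icc 1 ⌊y₁⌋₊).filter Nat.Prime, (1 : ℝ) / p := by
    have hsub : (Finset.Icc 1 ⌊w⌋₊).filter Nat.Prime ⊆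
        PZ y₁ w ∪ (Finset.Icc 1 ⌊y₁⌋₊).filter Nat.Prime := by
      intro p hp
      rw [mem_filter, mem_Icc] at hp
      rw [mem_union]
      by_cases h : (p : ℝ) ≤ y₁
      · right
        rw [mem_filter, mem_Icc]
        exact ⟨⟨hp.1.1, (Nat.le_floor_iff (by linarith)).2 h⟩, hp.2⟩
      · left
        rw [mem_PZ (by linarith)]
        exact ⟨hp.2, lt_of_not_ge h, (Nat.le_floor_iff (by linarith)).1 hp.1.2⟩
    refine (Finset.sum_le_sum_of_subset_of_nonneg hsub fun p _ _ => by positivity).trans ?_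
    rw [← Finset.sum_union_inter]
    have : 0 ≤ ∑ p ∈ PZ y₁ w ∩ (Finset.Icc 1 ⌊y₁⌋₊).filter Nat.Prime, (1 : ℝ) / p :=
      Finset.sum_nonneg fun p _ => by positivity
    linarith
  have h4 := floor_log hw3
  have hl3 : 1 < Real.log 3 := by
    rw [Real.lt_log_iff_exp_lt (by norm_num)]
    have := Real.exp_one_lt_d9
    linarith
  have h5 : Real.log (Real.log (⌊y₁⌋₊ : ℝ)) ≤ Real.log (Real.log y₁) := by
    have h3 : 3 ≤ ⌊y₁⌋₊ := Nat.le_floor (by exact_mod_cast hy)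
    have h3' : (3 : ℝ) ≤ (⌊y₁⌋₊ : ℝ) := by exact_mod_cast h3
    have h6 : 1 < Real.log (⌊y₁⌋₊ : ℝ) := hl3.trans_le (Real.log_le_log (by norm_num) h3')
    apply Real.log_le_log (by linarith)
    apply Real.log_le_log (by linarith)
    exact Nat.floor_le (by linarith)
  have h6 : 0 < Real.log w := Real.log_pos (by linarith)
  have h7 : 0 < Real.log y₁ := Real.log_pos (by linarith)
  rw [Real.log_div h6.ne' h7.ne']
  have h8 := (abs_le.1 h1).1
  have h9 := (abs_le.1 h2).2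
  linarith

end QL

open Classical in
/-- QL: lower bound of the sums over squarefree numbers (Rankin's trick + Mertens) -/
theorem A_lower : ∃ c₂ : ℝ, 0 < c₂ ∧ ∀ (y₁ z x C : ℝ) (χ : ℕ → ℝ), (∀ p, |χ p| ≤ 1) →
    3 ≤ y₁ → y₁ ≤ x → x ≤ z → 0 ≤ C → (∀ w, y₁ ≤ w → w ≤ z → -C ≤ Tc χ y₁ w) →
    c₂ * Real.exp (-C) * (Real.log x / Real.log y₁) - 1 ≤
      ∑ s ∈ ((PZ y₁ z).powerset.filter (fun s : Finset ℕ => s.Nonempty ∧ ∏ p ∈ s, (p : ℝ) ≤ x)),
        ∏ p ∈ s, (1 + χ p) / p := by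
  obtain ⟨C1, hC1⟩ := Pool.Agent.Helper256.KM.mertens_log
  obtain ⟨C2, hC2⟩ := Pool.Agent.Helper256.KM.mertens_inv
  have hC10 : 0 ≤ C1 := (abs_nonneg _).trans (hC1 1 le_rfl)
  have hC20 : 0 ≤ C2 := (abs_nonneg _).trans (hC2 3 le_rfl)
  have hsq : Summable (fun n : ℕ => 1 / (n : ℝ) ^ 2) :=
    Real.summable_one_div_nat_pow.2 (by norm_num)
  set K2 : ℝ := ∑' n : ℕ, 1 / (n : ℝ) ^ 2 with hK2
  have hK20 : 0 ≤ K2 := tsum_nonneg fun n => by positivity
  set A : ℝ := 4 * (1 + C1) + 1 with hA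
  have hA1 : 1 ≤ A := by rw [hA]; linarith
  refine ⟨Real.exp (-(2 * K2 + 2 * C2 + 2)) / (2 * A), by positivity, ?_⟩
  intro y₁ z x C χ hχ hy hyx hxz hC hT
  have hx3 : 3 ≤ x := hy.trans hyx
  have hlx : 0 < Real.log x := Real.log_pos (by linarith)
  have hly : 0 < Real.log y₁ := Real.log_pos (by linarith)
  have hg0 : ∀ p : ℕ, 0 ≤ (1 + χ p) / (p : ℝ) := by
    intro p
    have := (abs_le.1 (hχ p)).1
    exact div_nonneg (by linarith) (Nat.cast_nonneg p)
  have hc1 : Real.exp (-(2 * K2 + 2 * C2 + 2)) ≤ 1 := by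
    apply Real.exp_le_one_iff.2
    linarith
  have heC : Real.exp (-C) ≤ 1 := Real.exp_le_one_iff.2 (by linarith)
  have heC0 := Real.exp_pos (-C)
  set w : ℝ := Real.exp (Real.log x / A) with hw
  have hlw : Real.log w = Real.log x / A := by rw [hw, Real.log_exp]
  have hrhs : 0 ≤ ∑ s ∈ ((PZ y₁ z).powerset.filter
      (fun s : Finset ℕ => s.Nonempty ∧ ∏ p ∈ s, (p : ℝ) ≤ x)), ∏ p ∈ s, (1 + χ p) / (p : ℝ) :=
    Finset.sum_nonneg fun s _ => Finset.prod_nonneg fun p _ => hg0 p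
  by_cases hwy : w < y₁
  · -- small case
    have h1 : Real.log x / Real.log y₁ ≤ A := by
      rw [div_le_iff₀ hly]
      have h2 : Real.log w < Real.log y₁ := Real.log_lt_log (Real.exp_pos _) hwy
      rw [hlw, div_lt_iff₀ (by linarith)] at h2
      linarith
    have h3 : Real.exp (-(2 * K2 + 2 * C2 + 2)) / (2 * A) * Real.exp (-C) *
        (Real.log x / Real.log y₁) ≤ 1 := by
      calc Real.exp (-(2 * K2 + 2 * C2 + 2)) / (2 * A) * Real.exp (-C) *
          (Real.log x / Real.log y₁) ≤ 1 / (2 * A) * 1 * A := by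
            gcongr
        _ = 1 / 2 := by field_simp
        _ ≤ 1 := by norm_num
    linarith
  push Not at hwy
  have hw3 : 3 ≤ w := hy.trans hwy
  have hwx : w ≤ x := by
    rw [← Real.exp_log (show (0 : ℝ) < x by linarith), hw]
    apply Real.exp_le_exp.2
    exact div_le_self hlx.le hA1
  have hwz : w ≤ z := hwx.trans hxz
  have hr := QL.rankin C1 hC1 y₁ w x (fun p => (1 + χ p) / (p : ℝ)) hg0 (by
    intro p hp
    have h2 := (abs_le.1 (hχ p)).2
    show (1 + χ p) / (p : ℝ) ≤ 2 / p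
    exact div_le_div_of_nonneg_right (by linarith) (Nat.cast_nonneg p)) hw3 (by linarith) (by
    rw [hlw, ← hA]
    field_simp)
  -- compare the two sums
  have h1 : ∑ s ∈ (PZ y₁ w).powerset.filter (fun s : Finset ℕ => ∏ p ∈ s, (p : ℝ) ≤ x),
        ∏ p ∈ s, (1 + χ p) / (p : ℝ) ≤
      1 + ∑ s ∈ ((PZ y₁ z).powerset.filter
        (fun s : Finset ℕ => s.Nonempty ∧ ∏ p ∈ s, (p : ℝ) ≤ x)), ∏ p ∈ s, (1 + χ p) / (p : ℝ) := by
    have hsub : (PZ y₁ w).powerset.filter (fun s : Finset ℕ => ∏ p ∈ s, (p : ℝ) ≤ x) ⊆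
        insert ∅ ((PZ y₁ z).powerset.filter
          (fun s : Finset ℕ => s.Nonempty ∧ ∏ p ∈ s, (p : ℝ) ≤ x)) := by
      intro s hs
      rw [mem_filter, mem_powerset] at hs
      rw [mem_insert, mem_filter, mem_powerset]
      rcases s.eq_empty_or_nonempty with h | h
      · left; exact h
      · right
        refine ⟨fun p hp => ?_, h, hs.2⟩
        have h2 := (QL.mem_PZ (by linarith)).1 (hs.1 hp)
        exact (QL.mem_PZ (by linarith)).2 ⟨h2.1, h2.2.1, h2.2.2.trans hwz⟩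
    refine (Finset.sum_le_sum_of_subset_of_nonneg hsub fun s _ _ =>
      Finset.prod_nonneg fun p _ => hg0 p).trans ?_
    rw [Finset.sum_insert (by simp)]
    simp
  -- lower bound of the product
  have h2 : Real.exp (-(2 * K2 + 2 * C2 + 2)) * Real.exp (-C) * (Real.log x / Real.log y₁) / A ≤
      ∏ p ∈ PZ y₁ w, (1 + (1 + χ p) / (p : ℝ)) := by
    have h3 : Real.exp (∑ p ∈ PZ y₁ w, ((1 + χ p) / (p : ℝ) - 2 * (1 / (p : ℝ) ^ 2))) ≤
        ∏ p ∈ PZ y₁ w, (1 + (1 + χ p) / (p : ℝ)) := by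
      rw [Real.exp_sum]
      refine Finset.prod_le_prod (fun p _ => (Real.exp_pos _).le) fun p hp => ?_
      have hpp := ((QL.mem_PZ (by linarith)).1 hp).1
      have hp0 : (0 : ℝ) < p := by exact_mod_cast hpp.pos
      have h0 := hg0 p
      have h2 : (1 + χ p) / (p : ℝ) ≤ 2 / p :=
        div_le_div_of_nonneg_right (by linarith [(abs_le.1 (hχ p)).2]) hp0.le
      set t := (1 + χ p) / (p : ℝ) with ht
      have h4 := Real.le_log_one_add_of_nonneg h0
      have h5 : t - t ^ 2 / 2 ≤ 2 * t / (t + 2) := by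
        rw [le_div_iff₀ (by linarith)]
        nlinarith [mul_nonneg h0 (sq_nonneg t)]
      have h6 : t ^ 2 / 2 ≤ 2 * (1 / (p : ℝ) ^ 2) := by
        have h7 : t ^ 2 ≤ 4 * (1 / (p : ℝ) ^ 2) := by
          calc t ^ 2 ≤ (2 / (p : ℝ)) ^ 2 := pow_le_pow_left₀ h0 h2 2
            _ = 4 * (1 / (p : ℝ) ^ 2) := by ring
        linarith
      rw [← Real.exp_log (show 0 < 1 + t by linarith)]
      apply Real.exp_le_exp.2
      linarith
    refine le_trans ?_ h3
    have h4 : ∑ p ∈ PZ y₁ w, 1 / (p : ℝ) ^ 2 ≤ K2 :=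
      hsq.sum_le_tsum (PZ y₁ w) fun n _ => by positivity
    have h5 := QL.sum_inv C2 hC2 y₁ w hy hwy
    have h6 := hT w hwy hwz
    have h7 : ∑ p ∈ PZ y₁ w, ((1 + χ p) / (p : ℝ) - 2 * (1 / (p : ℝ) ^ 2)) =
        ∑ p ∈ PZ y₁ w, (1 : ℝ) / p + Tc χ y₁ w - 2 * ∑ p ∈ PZ y₁ w, 1 / (p : ℝ) ^ 2 := by
      unfold Tc
      rw [Finset.sum_sub_distrib, Finset.mul_sum, ← Finset.sum_add_distrib]
      congr 1
      refine Finset.sum_congr rfl fun p _ => ?_
      rw [add_div]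
    rw [h7]
    have h8 : 0 < Real.log w / Real.log y₁ := by
      rw [hlw]
      positivity
    calc Real.exp (-(2 * K2 + 2 * C2 + 2)) * Real.exp (-C) * (Real.log x / Real.log y₁) / A
        = Real.exp (-(2 * K2 + 2 * C2 + 2)) * Real.exp (-C) *
          Real.exp (Real.log (Real.log w / Real.log y₁)) := by
          rw [Real.exp_log h8, hlw]
          field_simp
      _ = Real.exp (-(2 * K2 + 2 * C2 + 2) + -C + Real.log (Real.log w / Real.log y₁)) := by
          rw [Real.exp_add, Real.exp_add]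
      _ ≤ _ := by
          apply Real.exp_le_exp.2
          linarith
  have h9 : Real.exp (-(2 * K2 + 2 * C2 + 2)) / (2 * A) * Real.exp (-C) *
      (Real.log x / Real.log y₁) =
      Real.exp (-(2 * K2 + 2 * C2 + 2)) * Real.exp (-C) * (Real.log x / Real.log y₁) / A / 2 := by
    field_simp
  rw [h9]
  have h10 := h2.trans hr
  linarith

end Pool.Agent.H378R2.QG
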