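import Pool.Agent.H378R2.QG.Defs
import Pool.Agent.Helper112.Arith

set_option autoImplicit false

/-! # QR1: the average of `(m/φ(m))²/m` -/

namespace Pool.Agent.H378R2.QG

open Finset

/-- QR1: the average of `(m/φ(m))²/m` -/
theorem sum_ratio : ∃ C : ℝ, 0 < C ∧ ∀ M : ℕ, 2 ≤ M →
    ∑ m ∈ Finset.Icc 1 M, ((m : ℝ) / (Nat.totient m : ℝ)) ^ 2 / m ≤ C * Real.log M := by
  obtain ⟨C, hC0, hC⟩ := Pool.Agent.Helper112.sum_ratio_sq
  refine ⟨3 * C, by positivity, fun M hM => ?_⟩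
  have h1 := hC M (by omega)
  have h2 : Real.log 2 ≤ Real.log M := Real.log_le_log (by norm_num) (by exact_mod_cast hM)
  have h3 := Real.log_two_gt_d9
  have h4 : ∑ m ∈ Finset.Icc 1 M, ((m : ℝ) / (Nat.totient m : ℝ)) ^ 2 / m =
      ∑ r ∈ Finset.Icc 1 M, (1 / (r : ℝ)) * ((r : ℝ) / (Nat.totient r : ℝ)) ^ 2 := by
    refine Finset.sum_congr rfl fun m _ => ?_
    ring
  rw [h4]
  refine h1.trans ?_
  have h5 : 1 + Real.log M ≤ 3 * Real.log M := by linarith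
  calc C * (1 + Real.log M) ≤ C * (3 * Real.log M) := mul_le_mul_of_nonneg_left h5 hC0.le
    _ = 3 * C * Real.log M := by ring

end Pool.Agent.H378R2.QG
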